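import Pool.Agent.W385.TT.Curves

/-!
# The Tauberian averages of `H²` over all number fields

`K` is a number field, `C₁, …, C_r` are hyperelliptic curves `y² = f_i(x)` over `K` with `f_i` of
odd degree `2 g_i + 1 ≥ 3` (all elliptic curves are of this kind).  For a number field `F ⊇ K` and
`d = (d₁, …, d_r)`, `d_i ∈ F^*`, the variety `V_d = ∏ C_{i, d_i}` over `F` is the product of the
quadratic twists `d_i y² = f_i(x)`.  The question is whether the averages
`T⁻¹ ∑_{q_v ≤ T} b_v(V_d) log(q_v) / q_v` converge to the rank of `NS(V_d / F)`.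

On the algebraic side, there is one finite Galois extension `M` of `K` which controls the ranks of
all `NS(V_d / F)`: if no `√(d_i d_j)`, `i < j`, lies in `F M`, the rank is `r`, and in general it is
the rank of `NS(V_e / F ∩ M)` for a twist `e` over `F ∩ M`.  The theorem is the analytic counterpart.
-/

set_option autoImplicit false

namespace Pool.Agent.Results.MP_4589ac_nt.AllNumberFields

open NumberField IsDedekindDomain Filter Topology Polynomial
open scoped TensorProduct

/-- Number of affine points of `d y² = f(x)` with coordinates in the finite field `k`. -/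
noncomputable def affineCount (k : Type) [Field k] (f : k[X]) (d : k) : ℕ :=
  Nat.card {P : k × k // d * P.2 ^ 2 = f.eval P.1}

/-- Trace of the Frobenius at `v` on `H¹` of the smooth projective curve `d y² = f(x)`, `deg f` odd:
it is `q + 1` minus the number of points over the residue field, and there is one point at
infinity. -/
noncomputable def traceH1 {F : Type} [Field F] [NumberField F] (v : HeightOneSpectrum (𝓞 F))
    (f : (𝓞 F)[X]) (d : 𝓞 F) : ℤ :=
  haveI : v.asIdeal.IsMaximal := v.isMaximal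
  letI : Field (𝓞 F ⧸ v.asIdeal) := Ideal.Quotient.field v.asIdeal
  (Ideal.absNorm v.asIdeal : ℤ) + 1 -
    (affineCount (𝓞 F ⧸ v.asIdeal) (f.map (Ideal.Quotient.mk v.asIdeal))
      (Ideal.Quotient.mk v.asIdeal d) + 1)

/-- The pairs `i < j` of indices. -/
def pairs (r : ℕ) : Finset (Fin r × Fin r) := Finset.univ.filter fun p => p.1 < p.2

/-- The trace `b_v` of the Frobenius at `v` on `H²` of the product of the curves `d_i y² = f_i(x)`
over `F`, by the Künneth formula. -/
noncomputable def b {F : Type} [Field F] [NumberField F] {r : ℕ}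
    (f : Fin r → (𝓞 F)[X]) (d : Fin r → 𝓞 F) (v : HeightOneSpectrum (𝓞 F)) : ℤ :=
  r * (Ideal.absNorm v.asIdeal : ℤ) +
    ∑ p ∈ pairs r, traceH1 v (f p.1) (d p.1) * traceH1 v (f p.2) (d p.2)

/-- The average `T⁻¹ ∑_{v ∉ R, q_v ≤ T} b_v log(q_v) / q_v` of the question. -/
noncomputable def tateAverage {F : Type} [Field F] [NumberField F] {r : ℕ}
    (f : Fin r → (𝓞 F)[X]) (d : Fin r → 𝓞 F) (R : Finset (HeightOneSpectrum (𝓞 F))) (T : ℕ) : ℝ :=
  (T : ℝ)⁻¹ * ∑ᶠ v ∈ {v : HeightOneSpectrum (𝓞 F) | v ∉ R ∧ Ideal.absNorm v.asIdeal ≤ T},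
    (b f d v : ℝ) * Real.log (Ideal.absNorm v.asIdeal : ℝ) / (Ideal.absNorm v.asIdeal : ℝ)

section
variable {K : Type} [Field K] [NumberField K] {r : ℕ}

/-- The polynomials `f_i`, read over the extension `F` of `K`. -/
noncomputable def polyOver (F : Type) [Field F] [NumberField F] [Algebra K F]
    (f : Fin r → (𝓞 K)[X]) (i : Fin r) : (𝓞 F)[X] := (f i).map (algebraMap (𝓞 K) (𝓞 F))

/-- A variety `V_d = ∏ {d_i y² = f_i(x)}` over the number field `F`, `K ⊆ F`, together with a finite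
set `R` of primes of `F` that contains the primes of bad reduction. -/
structure Twist (f : Fin r → (𝓞 K)[X]) (F : IntermediateField K (AlgebraicClosure K))
    [NumberField F] where
  d : Fin r → 𝓞 F
  d_ne_zero : ∀ i, d i ≠ 0
  R : Finset (HeightOneSpectrum (𝓞 F))
  good : ∀ v, v ∉ R → ∀ i, 2 * d i * (polyOver F f i).leadingCoeff ∉ v.asIdeal ∧
    ((polyOver F f i).map (Ideal.Quotient.mk v.asIdeal)).Separable

/-- The average of the question for `V_d` over `F`. -/
noncomputable def Twist.average {f : Fin r → (𝓞 K)[X]}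
    {F : IntermediateField K (AlgebraicClosure K)} [NumberField F] (V : Twist f F)
    (T : ℕ) : ℝ := tateAverage (polyOver F f) V.d V.R T

/-- `d_i d_j` as an element of the algebraic closure of `K`. -/
noncomputable def dd {F : IntermediateField K (AlgebraicClosure K)} (d : Fin r → 𝓞 F)
    (i j : Fin r) : AlgebraicClosure K := (((d i * d j : 𝓞 F) : F) : AlgebraicClosure K)

/-- The twists `d` over `F` and `e` over `F₀` (`F₀ = F ∩ M` below): for all `i < j`, either
`d_i d_j e_i e_j` is a square in `F` and `√(e_i e_j) ∈ M`, or `√(d_i d_j) ∉ F M` and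
`√(e_i e_j) ∉ M`. -/
def Related (M : IntermediateField K (AlgebraicClosure K))
    {F F₀ : IntermediateField K (AlgebraicClosure K)} (d : Fin r → 𝓞 F) (e : Fin r → 𝓞 F₀) :
    Prop :=
  ∀ i j, i < j → ((∃ u ∈ F, u ^ 2 = dd d i j * dd e i j) ∧ ∃ t ∈ M, t ^ 2 = dd e i j) ∨
    ((∀ y ∈ F ⊔ M, y ^ 2 ≠ dd d i j) ∧ ∀ y ∈ M, y ^ 2 ≠ dd e i j)

/-- The intertwining number of the representations of `Gal(K̄/K)` induced from the quadratic
characters of `F(√D)/F` and `F'(√D')/F'`: the number of the simple factors of `F ⊗_K F'` in which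
`D ⊗ D'` is a square. -/
noncomputable def intertwining (K F F' : Type) [Field K] [Field F] [Algebra K F] [Field F']
    [Algebra K F'] (D : F) (D' : F') : ℕ :=
  Nat.card {m : MaximalSpectrum (F ⊗[K] F') // IsSquare (Ideal.Quotient.mk m.asIdeal (D ⊗ₜ D'))}

/-- The Gram number `∑_{i < j} 2 g_i · 2 g_j · I_ij` of two twists, where `I_ij` is the intertwining
number for `d_i d_j` and `d'_i d'_j`. -/
noncomputable def gram (f : Fin r → (𝓞 K)[X]) {F F' : IntermediateField K (AlgebraicClosure K)}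
    (d : Fin r → 𝓞 F) (d' : Fin r → 𝓞 F') : ℝ :=
  ∑ p ∈ pairs r, (((f p.1).natDegree : ℝ) - 1) * (((f p.2).natDegree : ℝ) - 1) *
    (intertwining K F F' ((d p.1 * d p.2 : 𝓞 F) : F) ((d' p.1 * d' p.2 : 𝓞 F') : F') : ℝ)

/-- `M` governs the numbers `ρ` for all `V_d / F` with `(F, d)` in the class `P`, up to `1/k`.

1. If no `√(d_i d_j)`, `i < j`, lies in `F M`, then `|ρ(V_d / F) - r| < 1/k`.

2. If `e` over `F₀ = F ∩ M` is related to `d`, then `|ρ(V_d / F) - ρ(V_e / F₀)| < 1/k`.

3. There is a list of at most `2^((r² + 1)([M : K] + 1))` twists `e` over subfields of `M` such that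
every twist `d` over a number field `F ⊇ K` is related to a member of the list over `F ∩ M`. -/
def Governs (f : Fin r → (𝓞 K)[X]) (k : ℕ) (M : IntermediateField K (AlgebraicClosure K))
    (P : ∀ (F : IntermediateField K (AlgebraicClosure K)) [NumberField F],
      (Fin r → 𝓞 F) → Prop)
    (ρ : ∀ (F : IntermediateField K (AlgebraicClosure K)) [NumberField F], Twist f F → ℝ) : Prop :=
  (∀ (F : IntermediateField K (AlgebraicClosure K)) [NumberField F] (V : Twist f F),
    P F V.d → (∀ i j, i < j → ∀ y ∈ F ⊔ M, y ^ 2 ≠ dd V.d i j) → |ρ F V - r| < 1 / k) ∧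
  (∀ (F F₀ : IntermediateField K (AlgebraicClosure K)) [NumberField F] [NumberField F₀],
    F₀ = F ⊓ M → ∀ (V : Twist f F) (W : Twist f F₀), P F V.d → P F₀ W.d →
      Related M V.d W.d → |ρ F V - ρ F₀ W| < 1 / k) ∧
  ∃ (l : ℕ) (G : Fin l → IntermediateField K (AlgebraicClosure K)) (e : ∀ a, Fin r → 𝓞 (G a)),
    l ≤ 2 ^ ((r ^ 2 + 1) * (Module.finrank K M + 1)) ∧
    (∀ a, G a ≤ M ∧ NumberField (G a) ∧ ∀ i, e a i ≠ 0) ∧
    ∀ (F : IntermediateField K (AlgebraicClosure K)) [NumberField F] (d : Fin r → 𝓞 F),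
      (∀ i, d i ≠ 0) → ∃ a, G a = F ⊓ M ∧ Related M d (e a)

end

section
variable {K : Type} [Field K] [NumberField K] {r : ℕ} {f : Fin r → (𝓞 K)[X]}

instance instNFsub (F : {F : IntermediateField K (AlgebraicClosure K) // NumberField F}) :
    NumberField F.1 := F.2

/-- all twists over all number fields -/
abbrev Ind (f : Fin r → (𝓞 K)[X]) : Type :=
  Σ F : {F : IntermediateField K (AlgebraicClosure K) // NumberField F}, Twist f F.1

theorem countable_Ind : Countable (Ind f) := by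
  have h := Pool.Agent.W385.TT.countable_data K (Fin r)
  let g : Ind f → (Σ F : {F : IntermediateField K (AlgebraicClosure K) // NumberField F},
      (Fin r → 𝓞 F.1) × Finset (HeightOneSpectrum (𝓞 F.1))) := fun i => ⟨i.1, (i.2.d, i.2.R)⟩
  have hg : Function.Injective g := by
    rintro ⟨F, ⟨d, h1, R, h2⟩⟩ ⟨F', ⟨d', h1', R', h2'⟩⟩ h
    have e1 : F = F' := congrArg Sigma.fst h
    subst e1
    have e2 := eq_of_heq (Sigma.mk.inj h).2
    have e3 : d = d' := congrArg Prod.fst e2
    have e4 : R = R' := congrArg Prod.snd e2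
    subst e3
    subst e4
    rfl
  exact hg.countable

/-- passage to the helper library -/
noncomputable def toDat (i : Ind f) : Pool.Agent.W385.TT.Dat K (Fin r) :=
  ⟨i.1.1, i.1.2, i.2.d, i.2.d_ne_zero⟩

theorem toDat_good (i : Ind f) : ∀ v, v ∉ i.2.R →
    Pool.Agent.H126T.Gd (Pool.Agent.W353.TP.bc i.1.1 f) i.2.d v := by
  intro v hv j
  have h := (i.2.good v hv j).1
  refine ⟨fun h2 => h ?_, fun h2 => h ?_, fun h2 => h ?_⟩
  · rw [mul_assoc]
    exact v.asIdeal.mul_mem_right _ h2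
  · rw [mul_right_comm]
    exact v.asIdeal.mul_mem_left _ h2
  · exact v.asIdeal.mul_mem_left _ h2

theorem average_eq (i : Ind f) (X : ℕ) : i.2.average X =
    Pool.Agent.H126V.Taub.LA i.2.R X (fun v =>
      (Pool.Agent.H126T.traceH2 v (Pool.Agent.W353.TP.bc i.1.1 f) i.2.d 1 : ℝ) /
        (Pool.Agent.H921R2.TatePole.nm v : ℝ)) := by
  classical
  have hH1 : ∀ (v : HeightOneSpectrum (𝓞 i.1.1)) (g : (𝓞 i.1.1)[X]) (e : 𝓞 i.1.1),
      (2 : 𝓞 i.1.1) ∉ v.asIdeal →
      e ∉ v.asIdeal → traceH1 v g e = Pool.Agent.H126T.traceH1 v g e 1 := by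
    intro v g e h2 he
    haveI : v.asIdeal.IsMaximal := v.isMaximal
    letI : Field (𝓞 i.1.1 ⧸ v.asIdeal) := Ideal.Quotient.field v.asIdeal
    haveI : Finite (𝓞 i.1.1 ⧸ v.asIdeal) := Ideal.finiteQuotientOfFreeOfNeBot _ v.ne_bot
    unfold Pool.Agent.H126T.traceH1
    rw [Pool.Agent.H126T.affPts_eq _ _ 1 (𝓞 i.1.1 ⧸ v.asIdeal) (by rw [pow_one]), pow_one]
    rfl
  have hset : {v : HeightOneSpectrum (𝓞 i.1.1) | v ∉ i.2.R ∧ Ideal.absNorm v.asIdeal ≤ X} =
      ((Pool.Agent.H126U.ST.VS i.2.R X : Finset (HeightOneSpectrum (𝓞 i.1.1))) :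
        Set (HeightOneSpectrum (𝓞 i.1.1))) := by
    ext v
    have h1 : v ∈ Pool.Agent.H126U.VX i.1.1 X ↔ Ideal.absNorm v.asIdeal ≤ X :=
      Pool.Agent.H126U.mem_VX i.1.1
    simp only [Pool.Agent.H126U.ST.VS, Finset.coe_filter, h1, Set.mem_ofPred_eq]
    exact and_comm
  unfold Twist.average tateAverage Pool.Agent.H126V.Taub.LA
  rw [hset, finsum_mem_coe_finset, div_eq_inv_mul]
  congr 1
  refine Finset.sum_congr rfl fun v hv => ?_
  have hvR : v ∉ i.2.R := (Finset.mem_filter.1 hv).2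
  have hgood := toDat_good i v hvR
  have hb : (b (polyOver i.1.1 f) i.2.d v : ℝ) =
      (Pool.Agent.H126T.traceH2 v (Pool.Agent.W353.TP.bc i.1.1 f) i.2.d 1 : ℝ) := by
    unfold b Pool.Agent.H126T.traceH2
    rw [pow_one]
    congr 2
    refine Finset.sum_congr rfl fun p _ => ?_
    rw [hH1 v _ _ (hgood p.1).1 (hgood p.1).2.1, hH1 v _ _ (hgood p.1).1 (hgood p.2).2.1]
    rfl
  rw [hb]
  show _ * Real.log (Pool.Agent.H921R2.TatePole.nm v : ℝ) /
    (Pool.Agent.H921R2.TatePole.nm v : ℝ) = _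
  ring

end

open Pool.Agent.W385.TT in
/-- **The Tauberian averages of `H²` over all number fields.**
Let `N = ∑_{i < j} 2 g_i · 2 g_j`.  Every sequence of natural numbers which tends to infinity has a
subsequence `T_1 < T_2 < …` along which the averages of the question converge for all twists `V_d`
over all number fields `F ⊇ K`; the limits `ρ(V_d / F)` satisfy the following.

(A) For finitely many twists `V_k` over number fields `F_k` and real numbers `a_k`,
`(∑ a_k (ρ(V_k / F_k) - r))² ≤ N ∑_{k, l} a_k a_l gram(V_k, V_l)`.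

(B) Let `n ≥ 0`, `k ≥ 1`, and let `P` be a class of pairs `(F, d)`, `F` a number field containing
`K`, `d` a twist over `F`, such that for every pair `[F : K] ≤ n` or, for all `i < j`, the
representation of `Gal(K̄/K)` induced from the quadratic character of `F(√(d_i d_j))/F` has
intertwining number at most `n` with itself; for instance all `(F, d)` with `[F : K] ≤ n`.  Then
there is a finite Galois extension `M` of `K` that governs the numbers `ρ` for all pairs in `P` up to
`1/k`.  If `[F : K] ≤ m` for all pairs in `P`, then the degree of `M` is at most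
`((4^r m)!)^(2 n (k N)²)`. -/
theorem result (K : Type) [Field K] [NumberField K] (r : ℕ) (f : Fin r → (𝓞 K)[X])
    (hodd : ∀ i, Odd (f i).natDegree) (h3 : ∀ i, 3 ≤ (f i).natDegree)
    (N : ℕ) (hN : N = ∑ p ∈ pairs r, ((f p.1).natDegree - 1) * ((f p.2).natDegree - 1))
    (T₀ : ℕ → ℕ) (hT₀ : Tendsto T₀ atTop atTop) :
    ∃ (φ : ℕ → ℕ) (ρ : ∀ (F : IntermediateField K (AlgebraicClosure K)) [NumberField F],
        Twist f F → ℝ), StrictMono φ ∧
      (∀ (F : IntermediateField K (AlgebraicClosure K)) [NumberField F] (V : Twist f F),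
        Tendsto (fun m => V.average (T₀ (φ m))) atTop (𝓝 (ρ F V))) ∧
      (∀ (κ : Type) (S : Finset κ) (F : κ → IntermediateField K (AlgebraicClosure K))
        [∀ k, NumberField (F k)] (V : ∀ k, Twist f (F k)) (a : κ → ℝ),
        (∑ k ∈ S, a k * (ρ (F k) (V k) - r)) ^ 2 ≤
          N * ∑ k ∈ S, ∑ l ∈ S, a k * a l * gram f (V k).d (V l).d) ∧
      ∀ (n k : ℕ), 1 ≤ k →
        ∀ P : (∀ (F : IntermediateField K (AlgebraicClosure K)) [NumberField F],
          (Fin r → 𝓞 F) → Prop),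
        (∀ (F : IntermediateField K (AlgebraicClosure K)) [NumberField F] (d : Fin r → 𝓞 F),
          P F d → Module.finrank K F ≤ n ∨ ∀ i j, i < j →
            intertwining K F F ((d i * d j : 𝓞 F) : F) ((d i * d j : 𝓞 F) : F) ≤ n) →
        ∀ m : ℕ, ∃ M : IntermediateField K (AlgebraicClosure K),
          FiniteDimensional K M ∧ IsGalois K M ∧
          ((∀ (F : IntermediateField K (AlgebraicClosure K)) [NumberField F] (d : Fin r → 𝓞 F),
            P F d → Module.finrank K F ≤ m) →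
              Module.finrank K M ≤ (4 ^ r * m).factorial ^ (2 * n * (k * N) ^ 2)) ∧
          Governs f k M P ρ := by
  classical
  have hNb : (N : ℝ) = ∑ p ∈ pairs r, Pool.Agent.H126T.bb f p := by
    rw [hN]
    push_cast
    refine Finset.sum_congr rfl fun p _ => ?_
    unfold Pool.Agent.H126T.bb
    rw [Nat.cast_sub (by have := h3 p.1; omega), Nat.cast_sub (by have := h3 p.2; omega)]
    push_cast
    ring
  have hbnn : ∀ j ∈ Pool.Agent.H126T.pairs r, 0 ≤ Pool.Agent.H126T.bb f j :=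
    fun j _ => (Pool.Agent.H126T.bb_pos h3 j).le
  have hmem : ∀ {i j : Fin r}, i < j → (i, j) ∈ Pool.Agent.H126T.pairs r := by
    intro i j hij
    exact Finset.mem_filter.2 ⟨Finset.mem_univ _, hij⟩
  have hlt : ∀ {p : Fin r × Fin r}, p ∈ Pool.Agent.H126T.pairs r → p.1 < p.2 := fun h =>
    (Finset.mem_filter.1 h).2
  have hcount : Countable (Ind f) := countable_Ind
  let av : Ind f → Av K (Pool.Agent.H126T.pairs r) (tH f) (Pool.Agent.H126T.bb f) r := fun i =>
    avC hodd h3 (toDat i) i.2.R (toDat_good i)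
  have havg : ∀ (i : Ind f) (X : ℕ), (av i).nat X = i.2.average X - r := by
    intro i X
    rw [average_eq]
    rfl
  obtain ⟨φ, hφ, ρ', hlim, hBes⟩ := subseq (fun i j : Ind f => (av i).G (av j)) (N : ℝ)
    (fun i X => (av i).nat X) (fun κ S g a η hη => by
      rw [hNb]
      exact Av.nat_ineq hbnn (fun j _ x => abs_tH hodd h3 j x) S (fun k => av (g k)) a hη)
    T₀ hT₀
  have hB : Bes AP (Pool.Agent.H126T.pairs r) (Pool.Agent.H126T.bb f) (toDat (f := f)) ρ'
      (N : ℝ) := hBes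
  refine ⟨φ, fun F hF V => r + ρ' ⟨⟨F, hF⟩, V⟩, hφ, ?_, ?_, ?_⟩
  · intro F hF V
    have h1 := (hlim ⟨⟨F, hF⟩, V⟩).const_add (r : ℝ)
    refine h1.congr fun m => ?_
    rw [havg]
    ring
  · intro κ S F hF V a
    have h1 := hB κ S (fun k => ⟨⟨F k, hF k⟩, V k⟩) a
    have e1 : ∀ k ∈ S, a k * (r + ρ' ⟨⟨F k, hF k⟩, V k⟩ - r) = a k * ρ' ⟨⟨F k, hF k⟩, V k⟩ := by
      intro k _
      ring
    rw [Finset.sum_congr rfl e1]
    refine h1.trans (le_of_eq ?_)
    congr 1
    refine Finset.sum_congr rfl fun k _ => Finset.sum_congr rfl fun l _ => ?_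
    congr 1
    unfold GD Gn gram
    refine Finset.sum_congr rfl fun p hp => ?_
    rw [D_AP _ hp, D_AP _ hp]
    rfl
  · intro n k hk P hP m
    have hkR : (0 : ℝ) < k := by exact_mod_cast hk
    have hdiv : ∀ {x : ℝ}, (k : ℝ) * |x| < 1 → |x| < 1 / k := by
      intro x hx
      rw [lt_div_iff₀ hkR, mul_comm]
      exact hx
    obtain ⟨M, hM1, hM2, hdeg, hA, hC⟩ := stab' hbnn hNb hB n k m
      (fun i => P i.1.1 i.2.d)
    have hBd : ∀ i : Ind f, P i.1.1 i.2.d → Bd AP (Pool.Agent.H126T.pairs r) n (toDat i) := by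
      intro i h
      rcases hP i.1.1 i.2.d h with h1 | h1
      · exact Bd_of_finrank h1
      · intro j hj
        have := h1 j.1 j.2 (hlt hj)
        rw [D_AP _ hj]
        exact this
    have hpr : ∀ (i : Ind f) {a c : Fin r}, a < c → (toDat i).pr AP (a, c) = dd i.2.d a c := by
      intro i a c hac
      unfold Dat.pr
      rw [D_AP _ (hmem hac)]
      rfl
    have hsep : Algebra.IsSeparable K M := inferInstance
    refine ⟨M, hM1, IsGalois.mk, fun h => ?_, ?_, ?_, ?_⟩
    · have := hdeg fun i hi => h i.1.1 i.2.d hi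
      rwa [Fintype.card_fin] at this
    · intro F hF V hV hcond
      have h1 := hA ⟨⟨F, hF⟩, V⟩ (hBd _ hV) hV (fun j hj y hy => by
        rw [hpr ⟨⟨F, hF⟩, V⟩ (hlt hj)]
        exact hcond j.1 j.2 (hlt hj) y hy)
      have e1 : r + ρ' ⟨⟨F, hF⟩, V⟩ - r = ρ' ⟨⟨F, hF⟩, V⟩ := by ring
      rw [e1]
      exact hdiv h1
    · intro F F₀ hF hF₀ hFF V W hV hW hR
      have h1 := hC ⟨⟨F, hF⟩, V⟩ ⟨⟨F₀, hF₀⟩, W⟩ hFF (hBd _ hV) (hBd _ hW) hV (fun j hj => by
        rw [hpr ⟨⟨F, hF⟩, V⟩ (hlt hj), hpr ⟨⟨F₀, hF₀⟩, W⟩ (hlt hj)]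
        exact hR j.1 j.2 (hlt hj))
      have e1 : r + ρ' ⟨⟨F, hF⟩, V⟩ - (r + ρ' ⟨⟨F₀, hF₀⟩, W⟩) =
          ρ' ⟨⟨F, hF⟩, V⟩ - ρ' ⟨⟨F₀, hF₀⟩, W⟩ := by ring
      rw [e1]
      exact hdiv h1
    · obtain ⟨l, s, hl, hs⟩ := Pool.Agent.W353.TP.finite_types (r := r) M
      refine ⟨l, fun a => (s a).G, fun a => (s a).e, hl,
        fun a => ⟨(s a).le, (s a).nf, (s a).he⟩, fun F _ d hd => ?_⟩
      obtain ⟨a, ha, hR⟩ := hs F d hd
      exact ⟨a, ha, fun i j hij => hR (i, j) (hmem hij)⟩

end Pool.Agent.Results.MP_4589ac_nt.AllNumberFields
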